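import Pool.Agent.H638.IB.Final

/-! Iterated intersection bodies of origin-symmetric convex bodies converge to the Euclidean ball
in the Banach-Mazur distance, in every dimension `n ≥ 3`, uniformly in the body. -/

set_option autoImplicit false

open MeasureTheory Set Filter Topology Metric
open scoped Pointwise

namespace Pool.Agent.Results.MP_5ac201_gt.UniformConvergence

/-- Euclidean `n`-space. -/
abbrev E (n : ℕ) : Type := EuclideanSpace ℝ (Fin n)

/-- The closed unit ball. -/
def unitBall (n : ℕ) : Set (E n) := closedBall 0 1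

/-- Origin-symmetric convex bodies: compact, convex, with nonempty interior and `K = -K`. -/
structure IsSymConvexBody {n : ℕ} (K : Set (E n)) : Prop where
  isCompact : IsCompact K
  convex : Convex ℝ K
  interior_nonempty : (interior K).Nonempty
  neg_mem : ∀ x ∈ K, -x ∈ K

/-- The hyperplane through the origin orthogonal to `u`. -/
noncomputable abbrev hyp {n : ℕ} (u : E n) : Submodule ℝ (E n) := (ℝ ∙ u)ᗮ

/-- Lebesgue measure of the hyperplane `hyp u`. -/
noncomputable abbrev hypVol {n : ℕ} (u : E n) : Measure (hyp u) := volume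

/-- The `(n-1)`-dimensional volume of the section of `K` by the hyperplane through the origin
orthogonal to `u`. -/
noncomputable def secVol {n : ℕ} (K : Set (E n)) (u : E n) : ℝ :=
  (hypVol u {y : hyp u | (y : E n) ∈ K}).toReal

/-- The intersection body: the star body whose radial function is `secVol K` on unit vectors. -/
def interBody {n : ℕ} (K : Set (E n)) : Set (E n) :=
  {x | ∃ u : E n, ‖u‖ = 1 ∧ ∃ r : ℝ, 0 ≤ r ∧ r ≤ secVol K u ∧ x = r • u}

/-- The image of a set under an invertible linear map. -/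
def linImage {n : ℕ} (T : E n ≃ₗ[ℝ] E n) (A : Set (E n)) : Set (E n) := T '' A

/-- The dilate `l A = {l x : x ∈ A}`. -/
def dilate {n : ℕ} (l : ℝ) (A : Set (E n)) : Set (E n) := (fun x => l • x) '' A

/-- The Banach-Mazur distance. -/
noncomputable def dBM {n : ℕ} (A B : Set (E n)) : ℝ :=
  sInf {l : ℝ | 1 ≤ l ∧ ∃ T : E n ≃ₗ[ℝ] E n, B ⊆ linImage T A ∧ linImage T A ⊆ dilate l B}

/-- The iterated intersection body `I^m K`. -/
def iter {n : ℕ} (m : ℕ) (K : Set (E n)) : Set (E n) := interBody^[m] K

/-- The affinely invariant volume ratio `vol(IK) / vol(K)^(n-1)`. -/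
noncomputable def ratio {n : ℕ} (K : Set (E n)) : ℝ :=
  (volume (interBody K)).toReal / (volume K).toReal ^ (n - 1)

/-- Centred ellipsoids: images of the closed unit ball under invertible linear maps. -/
def IsCentredEllipsoid {n : ℕ} (K : Set (E n)) : Prop :=
  ∃ T : E n ≃ₗ[ℝ] E n, K = linImage T (unitBall n)

/-- `I^m K → B` in the Banach-Mazur distance. -/
def ConvergesToBall {n : ℕ} (K : Set (E n)) : Prop :=
  Tendsto (fun m : ℕ => dBM (iter m K) (unitBall n)) atTop (𝓝 1)

/-- The volume ratio is nondecreasing along the iterates, tends to its value at the ball, and does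
not change from `K` to `IK` exactly when `K` is a centred ellipsoid. -/
def RatioFacts {n : ℕ} (K : Set (E n)) : Prop :=
  Monotone (fun m : ℕ => ratio (iter m K)) ∧
  Tendsto (fun m : ℕ => ratio (iter m K)) atTop (𝓝 (ratio (unitBall n))) ∧
  (ratio (interBody K) = ratio K ↔ IsCentredEllipsoid K)

/-- The iterates of all origin-symmetric convex bodies of `ℝⁿ` converge uniformly. -/
def ConvergesUniformly (n : ℕ) : Prop :=
  ∀ ε : ℝ, 0 < ε → ∃ M : ℕ, ∀ m : ℕ, M ≤ m → ∀ K : Set (E n), IsSymConvexBody K →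
    1 ≤ dBM (iter m K) (unitBall n) ∧ dBM (iter m K) (unitBall n) ≤ 1 + ε

theorem body_iff {n : ℕ} (K : Set (E n)) : IsSymConvexBody K ↔ Pool.Agent.H638.IB.Body K :=
  ⟨fun h => ⟨h.1, h.2, h.3, h.4⟩, fun h => ⟨h.1, h.2, h.3, h.4⟩⟩

theorem ratio_eq {N : ℕ} (K : Set (E (N + 1))) : ratio K = Pool.Agent.H638.IB.F K := rfl

theorem ell_iff {N : ℕ} (K : Set (E (N + 1))) :
    IsCentredEllipsoid K ↔ ∃ T : E (N + 1) ≃ₗ[ℝ] E (N + 1), T '' K = closedBall 0 1 := by
  constructor
  · rintro ⟨T, rfl⟩
    refine ⟨T.symm, ?_⟩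
    rw [linImage, ← image_comp]
    simp [unitBall]
  · rintro ⟨T, hT⟩
    refine ⟨T.symm, ?_⟩
    rw [linImage, unitBall, ← hT, ← image_comp]
    simp

/-- Let `n ≥ 3`.
(1) For every origin-symmetric convex body `K` of `ℝⁿ`, all iterates `Iᵐ K` are origin-symmetric
convex bodies, `d_BM(Iᵐ K, B) → 1`, the volume ratio `|IK|/|K|^(n-1)` is nondecreasing along the
iterates and converges to its value at the ball, and it stays the same in the first step exactly
when `K` is a centred ellipsoid.
(2) The convergence is uniform in `K`: for each `ε > 0` there is one `M` with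
`d_BM(Iᵐ K, B) ≤ 1 + ε` for all `m ≥ M` and all origin-symmetric convex bodies `K` of `ℝⁿ`. -/
theorem result (n : ℕ) (hn : 3 ≤ n) :
    (∀ K : Set (E n), IsSymConvexBody K →
      (∀ m : ℕ, IsSymConvexBody (iter m K)) ∧ ConvergesToBall K ∧ RatioFacts K) ∧
    ConvergesUniformly n := by
  constructor
  · intro K hK
    rw [body_iff] at hK
    have hit : ∀ m : ℕ, Pool.Agent.H638.IB.Body (interBody^[m] K) := fun m =>
      Pool.Agent.H638.IB.iter_body Pool.Agent.H638.IB.IBB_final hn K hK m
    refine ⟨fun m => (body_iff _).2 (hit m),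
      Pool.Agent.H638.IB.main_tendsto Pool.Agent.H638.IB.UNI_final hn K hK, ?_⟩
    obtain ⟨N, rfl⟩ : ∃ N, n = N + 1 := ⟨n - 1, by omega⟩
    have hN : 2 ≤ N := by omega
    have hL := fun (L : Set (E (N + 1))) (hL : Pool.Agent.H638.IB.Body L) =>
      Pool.Agent.H638.IB.LYAP_final (N := N) (by omega) L hL
    refine ⟨?_, ?_, ?_, ?_⟩
    · refine monotone_nat_of_le_succ fun m => ?_
      simp only [ratio_eq, iter, Function.iterate_succ_apply']
      exact (hL _ (hit m)).1
    · rw [Metric.tendsto_atTop]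
      intro ε hε
      obtain ⟨ε', hε', hC⟩ := Pool.Agent.H638.IB.CONT_final N hN (ε / 2) (by linarith)
      obtain ⟨M, hM⟩ := Pool.Agent.H638.IB.UNI_final N hN ε' hε'
      refine ⟨M, fun m hm => ?_⟩
      obtain ⟨h1, h2⟩ := hM m hm K hK
      have h3 := hC _ h1 h2
      have h4 := Pool.Agent.H638.IB.SUP_final N hN _ h1
      change |Pool.Agent.H638.IB.F (Pool.Agent.H638.IB.IB^[m] K) -
        Pool.Agent.H638.IB.F (closedBall (0 : E (N + 1)) 1)| < ε
      rw [abs_lt]
      constructor <;> linarith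
    · intro h
      rw [ell_iff]
      obtain ⟨c, hc, h5⟩ := (hL K hK).2 h
      exact Pool.Agent.H638.IB.RIG_final hN K hK c hc h5
    · intro h
      rw [ell_iff] at h
      obtain ⟨T, hT⟩ := h
      have h6 : Pool.Agent.H638.IB.F (T '' K) = Pool.Agent.H638.IB.F K :=
        Pool.Agent.H638.IB.FLIN_final (N := N) (by omega) K hK T
      rw [hT] at h6
      have h7 := (hL K hK).1
      have h8 := Pool.Agent.H638.IB.SUP_final N hN _ (hit 1)
      change Pool.Agent.H638.IB.F (Pool.Agent.H638.IB.IB K) = Pool.Agent.H638.IB.F K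
      change Pool.Agent.H638.IB.F (Pool.Agent.H638.IB.IB K) ≤ _ at h8
      linarith
  · intro ε hε
    obtain ⟨M, hM⟩ := Pool.Agent.H638.IB.main_uniform Pool.Agent.H638.IB.UNI_final hn ε hε
    exact ⟨M, fun m hm K hK => hM m hm K ((body_iff K).1 hK)⟩

end Pool.Agent.Results.MP_5ac201_gt.UniformConvergence
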